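import Pool.Agent.H547.V1.Stm

/-!
# Subtask SUN35 A6 (helper828)
-/

set_option autoImplicit false

namespace Pool.Agent.H828.SUN35

open Finset Pool.Agent.R439.PL Pool.Agent.H547

variable {p : ℕ} [hp : Fact p.Prime]

theorem H_Ico (n r : ℕ) : H n r = ∑ k ∈ Ico 1 (n + 1), 1 / (k : ℚ) ^ r := by
  unfold H
  rw [sum_Ico_eq_sum_range]
  refine sum_congr (by simp) fun i _ => ?_
  push_cast
  rw [add_comm (1 : ℚ)]

theorem H_pred (h3 : 3 < p) (r : ℕ) : H (p - 1) r = ∑ k ∈ Ico 1 p, 1 / (k : ℚ) ^ r := by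
  rw [H_Ico, show p - 1 + 1 = p by omega]

theorem uIco {k : ℕ} (hk : k ∈ Ico 1 p) : U p (k : ℚ) := by
  rw [mem_Ico] at hk
  exact uNat (by omega) hk.2

theorem mul3_mem (h3 : 3 < p) {k : ℕ} (hk : k ∈ Ico 1 p) : 3 * k % p ∈ Ico 1 p := by
  rw [mem_Ico] at hk ⊢
  refine ⟨?_, Nat.mod_lt _ (by omega)⟩
  by_contra h
  have h0 : 3 * k % p = 0 := by omega
  have h1 : p ∣ 3 * k := Nat.dvd_of_mod_eq_zero h0
  rcases (hp.out.dvd_mul).1 h1 with h2 | h2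
  · have := Nat.le_of_dvd (by norm_num) h2
    omega
  · have := Nat.le_of_dvd (by omega) h2
    omega

theorem sum_mul3 (h3 : 3 < p) (f : ℕ → ℚ) :
    ∑ k ∈ Ico 1 p, f (3 * k % p) = ∑ k ∈ Ico 1 p, f k := by
  have hinj : Set.InjOn (fun k => 3 * k % p) (Ico 1 p : Finset ℕ) := by
    intro k hk l hl hkl
    rw [mem_coe, mem_Ico] at hk hl
    have h1 : 3 * k ≡ 3 * l [MOD p] := hkl
    have hco : Nat.gcd p 3 = 1 := by
      rw [← Nat.coprime_iff_gcd_eq_one, Nat.coprime_primes hp.out Nat.prime_three]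
      omega
    have h2 : k ≡ l [MOD p] := Nat.ModEq.cancel_left_of_coprime hco h1
    have h3' : k % p = l % p := h2
    rwa [Nat.mod_eq_of_lt hk.2, Nat.mod_eq_of_lt hl.2] at h3'
  have hmaps : Set.MapsTo (fun k => 3 * k % p) (Ico 1 p : Finset ℕ) (Ico 1 p : Finset ℕ) :=
    fun k hk => mul3_mem h3 hk
  exact sum_nbij (fun k => 3 * k % p) (fun k hk => mul3_mem h3 hk) hinj
    (surjOn_of_injOn_of_card_le _ hmaps hinj le_rfl) (fun _ _ => rfl)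

/-- the quotients -/
theorem quot (h3 : 3 < p) {k : ℕ} (hk : k ∈ Ico 1 p) :
    ((3 * k / p : ℕ) : ℚ) = (if p / 3 < k then 1 else 0) + (if p - p / 3 ≤ k then 1 else 0) := by
  rw [mem_Ico] at hk
  have hne : p % 3 ≠ 0 := by
    intro h
    rcases (Nat.prime_dvd_prime_iff_eq Nat.prime_three hp.out).1 (Nat.dvd_of_mod_eq_zero h) with h'
    omega
  rcases lt_or_ge (p / 3) k with h1 | h1
  · rcases lt_or_ge k (p - p / 3) with h2 | h2
    · have : 3 * k / p = 1 := Nat.div_eq_of_lt_le (by omega) (by omega)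
      rw [this, if_pos h1, if_neg (by omega)]
      norm_num
    · have : 3 * k / p = 2 := Nat.div_eq_of_lt_le (by omega) (by omega)
      rw [this, if_pos h1, if_pos h2]
      norm_num
  · have : 3 * k / p = 0 := Nat.div_eq_of_lt (by omega)
    rw [this, if_neg (by omega), if_neg (by omega)]
    norm_num

theorem cube_refl {u : ℚ} (hu : U p u) : I p 1 (1 / ((p : ℚ) - u) ^ 3 + 1 / u ^ 3) := by
  have h2 := psub hu
  refine ⟨(3 * u ^ 2 - 3 * u * p + p ^ 2) / (u ^ 3 * ((p : ℚ) - u) ^ 3), dmem ?_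
    ((hu.pow 3).mul (h2.pow 3)), ?_⟩
  · exact add_mem (sub_mem (mul_mem (nm 3) (pow_mem hu.2.1 2))
      (mul_mem (mul_mem (nm 3) hu.2.1) p_mem)) (pow_mem p_mem 2)
  · have e1 := hu.1
    have e2 := h2.1
    field_simp
    ring

/-- the sum over the top `n` numbers -/
theorem top_sum {n : ℕ} (hn : n < p) :
    I p 1 (∑ k ∈ Ico (p - n) p, 1 / (k : ℚ) ^ 3 + H n 3) := by
  have e : ∑ k ∈ Ico (p - n) p, 1 / (k : ℚ) ^ 3 =
      ∑ i ∈ range n, 1 / ((p : ℚ) - ((i : ℚ) + 1)) ^ 3 := by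
    rw [sum_Ico_eq_sum_range, show p - (p - n) = n by omega, ← sum_range_reflect]
    refine sum_congr rfl fun i hi => ?_
    have hi' := mem_range.1 hi
    have e : ((p - n + (n - 1 - i) : ℕ) : ℚ) = (p : ℚ) - ((i : ℚ) + 1) := by
      have : ((p - n + (n - 1 - i) : ℕ) : ℚ) + ((i : ℚ) + 1) = (p : ℚ) := by
        have h2 : p - n + (n - 1 - i) + (i + 1) = p := by omega
        exact_mod_cast h2
      linarith
    rw [e]
  rw [e]
  unfold H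
  rw [← sum_add_distrib]
  exact I.sum fun i hi => cube_refl (uSucc (p := p) (mem_range.1 hi) hn)

theorem H3_zero (h3 : 3 < p) : I p 1 (H (p - 1) 3) := by
  have h := top_sum (p := p) (n := p - 1) (by omega)
  rw [show p - (p - 1) = 1 by omega, ← H_pred h3] at h
  have h2 : U p (2 : ℚ) := u2 (by omega)
  exact h2.cancel (icg h (by ring))

/-- `∑ t_k / k³` -/
theorem sum_quot (h3 : 3 < p) :
    I p 1 (∑ k ∈ Ico 1 p, ((3 * k / p : ℕ) : ℚ) * (1 / (k : ℚ) ^ 3) + 2 * H (p / 3) 3) := by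
  have e1 : ∑ k ∈ Ico 1 p, ((3 * k / p : ℕ) : ℚ) * (1 / (k : ℚ) ^ 3) =
      ∑ k ∈ Ico (p / 3 + 1) p, 1 / (k : ℚ) ^ 3 + ∑ k ∈ Ico (p - p / 3) p, 1 / (k : ℚ) ^ 3 := by
    have e2 : ∀ k ∈ Ico 1 p, ((3 * k / p : ℕ) : ℚ) * (1 / (k : ℚ) ^ 3) =
        (if p / 3 < k then 1 / (k : ℚ) ^ 3 else 0) +
        (if p - p / 3 ≤ k then 1 / (k : ℚ) ^ 3 else 0) := by
      intro k hk
      rw [quot h3 hk, add_mul, ite_mul, ite_mul, one_mul, zero_mul]
    rw [sum_congr rfl e2, sum_add_distrib, ← sum_filter, ← sum_filter]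
    congr 1
    · refine sum_congr ?_ fun _ _ => rfl
      ext k
      simp only [mem_filter, mem_Ico]
      omega
    · refine sum_congr ?_ fun _ _ => rfl
      ext k
      simp only [mem_filter, mem_Ico]
      omega
  have e3 : ∑ k ∈ Ico (p / 3 + 1) p, 1 / (k : ℚ) ^ 3 = H (p - 1) 3 - H (p / 3) 3 := by
    rw [H_pred h3, H_Ico, eq_sub_iff_add_eq, add_comm]
    exact sum_Ico_consecutive _ (by omega) (by omega)
  rw [e1, e3]
  have h1 := top_sum (p := p) (n := p / 3) (by omega)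
  exact icg (h1.add (H3_zero h3)) (by ring)

theorem sq_exp {u v t : ℚ} (hu : U p u) (hv : U p v) (ht : t ∈ Zp p) (e : v = u + p * t) :
    I p 2 (1 / v ^ 2 - (1 / u ^ 2 - 2 * p * (t * (1 / u ^ 3)))) := by
  refine ⟨t ^ 2 * (3 * u + 2 * p * t) / (u ^ 3 * v ^ 2), dmem (mul_mem (pow_mem ht 2)
    (add_mem (mul_mem (nm 3) hu.2.1) (mul_mem (mul_mem (nm 2) p_mem) ht)))
    ((hu.pow 3).mul (hv.pow 2)), ?_⟩
  have e1 := hu.1
  have e2 := hv.1
  field_simp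
  subst e
  ring

theorem cu_exp {u v t : ℚ} (hu : U p u) (hv : U p v) (ht : t ∈ Zp p) (e : v = u + p * t) :
    I p 1 (1 / u ^ 3 - 1 / v ^ 3) := by
  refine ⟨t * (3 * u ^ 2 + 3 * u * (p * t) + (p * t) ^ 2) / (u ^ 3 * v ^ 3), dmem (mul_mem ht
    (add_mem (add_mem (mul_mem (nm 3) (pow_mem hu.2.1 2)) (mul_mem (mul_mem (nm 3) hu.2.1)
      (mul_mem p_mem ht))) (pow_mem (mul_mem p_mem ht) 2))) ((hu.pow 3).mul (hv.pow 3)), ?_⟩
  have e1 := hu.1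
  have e2 := hv.1
  field_simp
  subst e
  ring

theorem A6 : Pool.Agent.H547.V1.S_A6 := by
  intro p _ h3
  have hu3 : U p (3 : ℚ) := u3 h3
  have hu2 : U p (2 : ℚ) := u2 (by omega)
  have hdm : ∀ k : ℕ, ((3 * k : ℕ) : ℚ) = ((3 * k % p : ℕ) : ℚ) + p * ((3 * k / p : ℕ) : ℚ) := by
    intro k
    exact_mod_cast (Nat.mod_add_div (3 * k) p).symm
  have hv : ∀ k ∈ Ico 1 p, U p ((3 * k : ℕ) : ℚ) := by
    intro k hk
    have := hu3.mul (uIco hk)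
    exact_mod_cast this
  -- first congruence
  have h1 : I p 2 (∑ k ∈ Ico 1 p, 1 / ((3 * k : ℕ) : ℚ) ^ 2 -
      (∑ k ∈ Ico 1 p, 1 / ((3 * k % p : ℕ) : ℚ) ^ 2 -
        2 * p * ∑ k ∈ Ico 1 p, ((3 * k / p : ℕ) : ℚ) * (1 / ((3 * k % p : ℕ) : ℚ) ^ 3))) := by
    rw [mul_sum, ← sum_sub_distrib, ← sum_sub_distrib]
    exact I.sum fun k hk => sq_exp (uIco (mul3_mem h3 hk)) (hv k hk) (nat_mem _) (hdm k)
  have e1 : ∑ k ∈ Ico 1 p, 1 / ((3 * k : ℕ) : ℚ) ^ 2 = 1 / 9 * H (p - 1) 2 := by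
    rw [H_pred h3, mul_sum]
    refine sum_congr rfl fun k hk => ?_
    have := (uIco hk).1
    push_cast
    field_simp
    norm_num
  have e2 : ∑ k ∈ Ico 1 p, 1 / ((3 * k % p : ℕ) : ℚ) ^ 2 = H (p - 1) 2 := by
    rw [H_pred h3]
    exact sum_mul3 h3 (fun k => 1 / (k : ℚ) ^ 2)
  rw [e1, e2] at h1
  -- second congruence
  have h2 : I p 1 (∑ k ∈ Ico 1 p, ((3 * k / p : ℕ) : ℚ) * (1 / ((3 * k % p : ℕ) : ℚ) ^ 3) -
      1 / 27 * ∑ k ∈ Ico 1 p, ((3 * k / p : ℕ) : ℚ) * (1 / (k : ℚ) ^ 3)) := by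
    rw [mul_sum, ← sum_sub_distrib]
    refine I.sum fun k hk => ?_
    have h := cu_exp (uIco (mul3_mem h3 hk)) (hv k hk) (nat_mem _) (hdm k)
    refine icg (h.mulL (nat_mem (p := p) (3 * k / p))) ?_
    have := (uIco hk).1
    have e3 : ((3 * k : ℕ) : ℚ) ^ 3 = 27 * (k : ℚ) ^ 3 := by
      push_cast
      ring
    rw [e3, one_div (27 * (k : ℚ) ^ 3), mul_inv]
    ring
  have h3' := sum_quot (p := p) h3
  have h27 : (1 / 27 : ℚ) ∈ Zp p := m23 h3 1 0 3 (by norm_num)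
  have h4 : I p 1 (∑ k ∈ Ico 1 p, ((3 * k / p : ℕ) : ℚ) * (1 / ((3 * k % p : ℕ) : ℚ) ^ 3) +
      2 / 27 * H (p / 3) 3) :=
    icg (h2.add (h3'.mulL h27)) (by ring)
  have h5 : I p 2 ((p : ℚ) * (∑ k ∈ Ico 1 p, ((3 * k / p : ℕ) : ℚ) *
      (1 / ((3 * k % p : ℕ) : ℚ) ^ 3) + 2 / 27 * H (p / 3) 3)) := I_p_mul_iff.2 h4
  have h6 := (h1.sub (h5.mulL (nm (p := p) 2))).mulL (m23 (p := p) h3 (q := (-27 / 4 : ℚ)) (-27) 2 0
    (by norm_num))
  exact icg h6 (by ring)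

end Pool.Agent.H828.SUN35
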